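import Pool.Agent.U272.AS.Lev
import Pool.Agent.U272.AS.Sym

/-!
# Levels close to the middle of families of lines that are mirror-symmetric up to `t` lines

A line is a pair (slope, intercept).  `height`, `level`, `kLevel`, `IsVertex`, `complexity` and `e`
are defined in `Pool/Agent/KLev/Levels.lean` (namespace `KLev.Levels`): the `k`-level is the closure
of the set of points on the lines with exactly `k` lines strictly below, its complexity is the
number of the points where it passes from one line to another, and `e k n` is the maximum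
complexity of the `k`-level over all sets of `n` lines.  `SimpleFam` (no two lines parallel, no
three through a common point) is defined in `Pool/Agent/U272/AS/Lev.lean`, `Mirror` below.

Proof of the upper bound.  Let `Δ ⊆ Γ` be the mirror-symmetric part; in suitable coordinates the
axis is `y = 0`.  A vertex `(x, y)` of the `k`-level has at most `d + t + 1` lines `l` of `Δ` with
`|l (x)| < |y|`.  The V-shaped functions `|l|` have only `O(n M)` crossings with at most `M` of them
below, for each `M` (charge a crossing to the steeper one).  Cut the `x`-axis into `O(n / (d + t))`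
slabs with at most `(d + t) ^ 2` such crossings for `M = 2 (d + t)` each.  A function which comes
down from level `M` to level `M / 2` in a slab has `M / 2` crossings on the way.  So only
`O(d + t)` lines come close to the axis in a slab, all other lines are above or below the relevant
part of the slab, and the part of the `k`-level in the slab belongs to a level of `O(d + t)` lines,
for which Dey's bound gives `O((d + t) ^ (4 / 3))` vertices.
-/

set_option autoImplicit false

namespace Pool.Agent.Results.MP_77a832_co.MirrorSymmetry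

open KLev.Levels

open Pool.Agent.U272.AS (SimpleFam)

/-- The family `Δ` of lines is invariant under the reflection
`(x, y) ↦ (x, 2 (α x + β) - y)` in the line `y = α x + β`. -/
def Mirror (α β : ℝ) (Δ : Finset (ℝ × ℝ)) : Prop :=
  ∀ l ∈ Δ, (2 * α - l.1, 2 * β - l.2) ∈ Δ

open scoped Classical in
/-- (1) If a set `Γ` of lines, no two parallel and no three concurrent, differs in at most `t`
lines from a set that is invariant under the reflection in a line (along the vertical direction),
then for all `k` and `d` with `| |Γ| - (2 k + 1) | ≤ d` its `k`-level has complexity at most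
`1300 (|Γ| + t) (d + t + 1) ^ (1 / 3)`.

(2) For all `k` and `n` there is a set of `2 n` lines, invariant under `(x, y) ↦ (x, -y)`, whose
`(n + k)`-level has complexity at least `e_k(n)`.

(3) For all `k` and `n` there is a set of `3 n` lines, invariant under `(x, y) ↦ (-x, y)`, and one
invariant under `(x, y) ↦ (-x, -y)`, whose `(n + k)`-level (the middle one for `k = ⌊n / 2⌋`)
has complexity at least `e_k(n)`. -/
theorem result :
    (∀ (Γ Δ : Finset (ℝ × ℝ)) (α β : ℝ) (t k d : ℕ), SimpleFam Γ → Mirror α β Δ →
      (Γ \ Δ).card + (Δ \ Γ).card ≤ t → Γ.card ≤ 2 * k + 1 + d → 2 * k + 1 ≤ Γ.card + d →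
      (complexity Γ k : ℝ) ≤ 1300 * (Γ.card + t) * ((d : ℝ) + t + 1) ^ ((1 : ℝ) / 3)) ∧
    (∀ k n : ℕ, ∃ Γ : Finset (ℝ × ℝ), Γ.card = 2 * n ∧ Mirror 0 0 Γ ∧
      e k n ≤ complexity Γ (n + k)) ∧
    (∀ k n : ℕ,
      (∃ Γ : Finset (ℝ × ℝ), Γ.card = 3 * n ∧ (∀ l ∈ Γ, (-l.1, l.2) ∈ Γ) ∧
        e k n ≤ complexity Γ (n + k)) ∧
      (∃ Γ : Finset (ℝ × ℝ), Γ.card = 3 * n ∧ (∀ l ∈ Γ, (l.1, -l.2) ∈ Γ) ∧
        e k n ≤ complexity Γ (n + k))) := by
  refine ⟨?_, ?_, fun k n => ⟨Pool.Agent.U272.AS.mirror_x k n, Pool.Agent.U272.AS.point_sym k n⟩⟩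
  · intro Γ Δ α β t k d hΓ hΔ ht h1 h2
    refine Pool.Agent.U272.AS.level_le (o := (α, β)) hΓ ?_ ht h1 h2
    intro l hl
    have : ((α, β) : ℝ × ℝ) + (α, β) - l = (2 * α - l.1, 2 * β - l.2) := by
      apply Prod.ext
      · show α + α - l.1 = 2 * α - l.1
        ring
      · show β + β - l.2 = 2 * β - l.2
        ring
    rw [this]
    exact hΔ l hl
  · intro k n
    obtain ⟨Γ, h1, h2, h3⟩ := Pool.Agent.U272.AS.mirror_y k n
    refine ⟨Γ, h1, ?_, h3⟩
    intro l hl
    have : ((2 * (0 : ℝ) - l.1, 2 * (0 : ℝ) - l.2) : ℝ × ℝ) = (-l.1, -l.2) := by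
      simp
    rw [this]
    exact h2 l hl

end Pool.Agent.Results.MP_77a832_co.MirrorSymmetry
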